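import Pool.Agent.Lib.MP_ea1188_al.KG.Iface

/-! # Modules K0A and K0B: the K-theory datum given by `K₀` (idempotent matrices). -/

set_option autoImplicit false

namespace KG.H82

open Matrix

section Mods

variable {R : Type} [Ring R]

/-- the left module of the row vectors fixed by `e` -/
def fx {ι : Type} [Fintype ι] (e : Matrix ι ι R) : Submodule R (ι → R) where
  carrier := {x | x ᵥ* e = x}
  add_mem' := by
    intro a b ha hb
    simp only [Set.mem_ofPred_eq] at *
    rw [Matrix.add_vecMul, ha, hb]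
  zero_mem' := by
    simp only [Set.mem_ofPred_eq, Matrix.zero_vecMul]
  smul_mem' := by
    intro c x hx
    simp only [Set.mem_ofPred_eq] at *
    rw [Matrix.smul_vecMul, hx]

theorem mem_fx {ι : Type} [Fintype ι] {e : Matrix ι ι R} {x : ι → R} :
    x ∈ fx e ↔ x ᵥ* e = x := Iff.rfl

/-- `a b` and `b a` have isomorphic modules -/
def mvn {ι κ : Type} [Fintype ι] [Fintype κ] (a : Matrix ι κ R) (b : Matrix κ ι R) :
    fx (a * b) ≃ₗ[R] fx (b * a) where
  toFun x := ⟨x.1 ᵥ* a, by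
    rw [mem_fx, Matrix.vecMul_vecMul, ← Matrix.mul_assoc, ← Matrix.vecMul_vecMul]
    rw [mem_fx.1 x.2]⟩
  invFun y := ⟨y.1 ᵥ* b, by
    rw [mem_fx, Matrix.vecMul_vecMul, ← Matrix.mul_assoc, ← Matrix.vecMul_vecMul]
    rw [mem_fx.1 y.2]⟩
  left_inv x := by
    apply Subtype.ext
    show (x.1 ᵥ* a) ᵥ* b = x.1
    rw [Matrix.vecMul_vecMul]
    exact mem_fx.1 x.2
  right_inv y := by
    apply Subtype.ext
    show (y.1 ᵥ* b) ᵥ* a = y.1
    rw [Matrix.vecMul_vecMul]
    exact mem_fx.1 y.2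
  map_add' x y := by
    apply Subtype.ext
    show (x.1 + y.1) ᵥ* a = x.1 ᵥ* a + y.1 ᵥ* a
    rw [Matrix.add_vecMul]
  map_smul' c x := by
    apply Subtype.ext
    show (c • x.1) ᵥ* a = c • (x.1 ᵥ* a)
    rw [Matrix.smul_vecMul]

theorem mvn' {ι κ : Type} [Fintype ι] [Fintype κ] {e : Matrix ι ι R} {f : Matrix κ κ R}
    (a : Matrix ι κ R) (b : Matrix κ ι R) (h1 : a * b = e) (h2 : b * a = f) :
    Nonempty (fx e ≃ₗ[R] fx f) := by
  subst h1 h2
  exact ⟨mvn a b⟩

theorem fx_reindex {ι κ : Type} [Fintype ι] [Fintype κ] [DecidableEq ι] [DecidableEq κ]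
    (s : ι ≃ κ) (M : Matrix ι ι R) : Nonempty (fx (Matrix.reindex s s M) ≃ₗ[R] fx M) := by
  refine mvn' (M.submatrix s.symm id) ((1 : Matrix ι ι R).submatrix id s.symm) ?_ ?_
  · rw [← Matrix.submatrix_mul M 1 s.symm id s.symm Function.bijective_id, Matrix.mul_one]
    rfl
  · rw [Matrix.submatrix_mul_equiv, Matrix.one_mul, Matrix.submatrix_id_id]

theorem fx_one {ι : Type} [Fintype ι] [DecidableEq ι] :
    Nonempty (fx (1 : Matrix ι ι R) ≃ₗ[R] (ι → R)) := by
  have : fx (1 : Matrix ι ι R) = ⊤ := by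
    rw [eq_top_iff]
    intro x _
    rw [mem_fx, Matrix.vecMul_one]
  rw [this]
  exact ⟨Submodule.topEquiv⟩

/-- block diagonal idempotents -/
theorem fx_blocks {ι κ : Type} [Fintype ι] [Fintype κ] (A : Matrix ι ι R) (D : Matrix κ κ R) :
    Nonempty (fx (fromBlocks A 0 0 D) ≃ₗ[R] (fx A × fx D)) := by
  have key : ∀ x : ι ⊕ κ → R, x ∈ fx (fromBlocks A 0 0 D) ↔
      (x ∘ Sum.inl) ∈ fx A ∧ (x ∘ Sum.inr) ∈ fx D := by
    intro x
    rw [mem_fx, mem_fx, mem_fx]
    have h := Matrix.vecMul_fromBlocks A 0 0 D x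
    rw [h, Matrix.vecMul_zero, Matrix.vecMul_zero, add_zero, zero_add]
    constructor
    · intro h
      constructor
      · ext i
        exact congrFun h (Sum.inl i)
      · ext i
        exact congrFun h (Sum.inr i)
    · rintro ⟨h1, h2⟩
      ext (i | i)
      · exact congrFun h1 i
      · exact congrFun h2 i
  exact ⟨{
    toFun := fun x => (⟨x.1 ∘ Sum.inl, ((key x.1).1 x.2).1⟩, ⟨x.1 ∘ Sum.inr, ((key x.1).1 x.2).2⟩)
    invFun := fun y => ⟨Sum.elim y.1.1 y.2.1, (key _).2 ⟨by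
      rw [Sum.elim_comp_inl]; exact y.1.2, by rw [Sum.elim_comp_inr]; exact y.2.2⟩⟩
    left_inv := fun x => by
      apply Subtype.ext
      ext (i | i) <;> rfl
    right_inv := fun y => by
      rfl
    map_add' := fun x y => rfl
    map_smul' := fun c x => rfl }⟩

/-- block triangular idempotents -/
theorem fx_tri {ι κ : Type} [Fintype ι] [Fintype κ] [DecidableEq ι] [DecidableEq κ]
    (A : Matrix ι ι R) (B : Matrix ι κ R)
    (D : Matrix κ κ R) (hA : A * A = A) (hD : D * D = D)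
    (hN : fromBlocks A B 0 D * fromBlocks A B 0 D = fromBlocks A B 0 D) :
    Nonempty (fx (fromBlocks A B 0 D) ≃ₗ[R] (fx A × fx D)) := by
  have hB : A * B + B * D = B := by
    rw [Matrix.fromBlocks_multiply] at hN
    exact (Matrix.fromBlocks_inj.1 hN).2.1
  have hABD : A * (B * D) = 0 := by
    have := congrArg (fun Z => A * Z) hB
    simp only [Matrix.mul_add, ← Matrix.mul_assoc, hA] at this
    rw [← Matrix.mul_assoc]
    exact left_eq_add.1 this.symm
  obtain ⟨f⟩ := fx_blocks A D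
  set X := A * B - B * D with hX
  have h1 : A * X - X * D = B := by
    rw [hX, Matrix.mul_sub, Matrix.sub_mul, ← Matrix.mul_assoc A A B, hA, hABD,
      Matrix.mul_assoc A B D, hABD, Matrix.mul_assoc B D D, hD, sub_zero, zero_sub, sub_neg_eq_add,
      hB]
  clear_value X
  have h2 : Nonempty (fx (fromBlocks A B 0 D) ≃ₗ[R] fx (fromBlocks A 0 0 D)) := by
    refine mvn' (fromBlocks A B 0 D * fromBlocks 1 (-X) 0 1) (fromBlocks 1 X 0 1) ?_ ?_
    · rw [Matrix.mul_assoc, Matrix.fromBlocks_multiply]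
      simp
    · rw [Matrix.fromBlocks_multiply, Matrix.fromBlocks_multiply]
      congr 1
      · simp
      · rw [Matrix.one_mul, Matrix.mul_neg, Matrix.mul_one, Matrix.zero_mul, zero_add,
          Matrix.mul_one, ← h1]
        abel
      · simp
      · simp
  obtain ⟨g⟩ := h2
  exact ⟨g.trans f⟩

end Mods

/-! ## The monoid `V(R)` -/

/-- idempotent matrices -/
structure Ob (R : Type) [Ring R] where
  n : ℕ
  e : Matrix (Fin n) (Fin n) R
  he : e * e = e

section Mon

variable {R : Type} [Ring R]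

/-- the module of an idempotent matrix -/
abbrev md (X : Ob R) : Submodule R (Fin X.n → R) := fx X.e

/-- idempotent matrices with isomorphic modules -/
instance obSetoid (R : Type) [Ring R] : Setoid (Ob R) where
  r X Y := Nonempty (md X ≃ₗ[R] md Y)
  iseqv := ⟨fun _ => ⟨LinearEquiv.refl R _⟩, fun ⟨f⟩ => ⟨f.symm⟩, fun ⟨f⟩ ⟨g⟩ => ⟨f.trans g⟩⟩

theorem idem_reindex {ι κ : Type} [Fintype ι] [Fintype κ] [DecidableEq ι] [DecidableEq κ]
    (s : ι ≃ κ) {M : Matrix ι ι R} (h : M * M = M) :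
    Matrix.reindex s s M * Matrix.reindex s s M = Matrix.reindex s s M := by
  rw [Matrix.reindex_apply, Matrix.submatrix_mul_equiv, h]

theorem idem_blocks {ι κ : Type} [Fintype ι] [Fintype κ] {A : Matrix ι ι R} {D : Matrix κ κ R}
    (hA : A * A = A) (hD : D * D = D) :
    fromBlocks A 0 0 D * fromBlocks A 0 0 D = fromBlocks A 0 0 D := by
  rw [Matrix.fromBlocks_multiply]
  simp [hA, hD]

/-- block sum -/
def obAdd (X Y : Ob R) : Ob R where
  n := X.n + Y.n
  e := Matrix.reindex finSumFinEquiv finSumFinEquiv (fromBlocks X.e 0 0 Y.e)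
  he := idem_reindex _ (idem_blocks X.he Y.he)

theorem md_add (X Y : Ob R) : Nonempty (md (obAdd X Y) ≃ₗ[R] (md X × md Y)) := by
  obtain ⟨f⟩ := fx_reindex (finSumFinEquiv (m := X.n) (n := Y.n)) (fromBlocks X.e 0 0 Y.e)
  obtain ⟨g⟩ := fx_blocks X.e Y.e
  exact ⟨f.trans g⟩

/-- the zero object -/
def obZero (R : Type) [Ring R] : Ob R where
  n := 0
  e := 0
  he := by simp

instance : Subsingleton (md (obZero R)) := by
  refine ⟨fun a b => ?_⟩
  apply Subtype.ext
  ext i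
  exact i.elim0

/-- isomorphism classes of finitely generated projective modules -/
def V (R : Type) [Ring R] : Type := Quotient (obSetoid R)

/-- `v` is the class of the module `P` -/
def Rp (v : V R) (P : Type) [AddCommGroup P] [Module R P] : Prop :=
  ∃ X : Ob R, (⟦X⟧ : V R) = v ∧ Nonempty (md X ≃ₗ[R] P)

theorem rp_mk (X : Ob R) : Rp (⟦X⟧ : V R) (md X) := ⟨X, rfl, ⟨LinearEquiv.refl R _⟩⟩

theorem rp_uniq {v : V R} {P Q : Type} [AddCommGroup P] [Module R P] [AddCommGroup Q]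
    [Module R Q] (h : Rp v P) (h' : Rp v Q) : Nonempty (P ≃ₗ[R] Q) := by
  obtain ⟨X, hX, ⟨f⟩⟩ := h
  obtain ⟨Y, hY, ⟨g⟩⟩ := h'
  obtain ⟨k⟩ := Quotient.exact (hX.trans hY.symm)
  exact ⟨(f.symm.trans k).trans g⟩

theorem rp_eq {v w : V R} {P : Type} [AddCommGroup P] [Module R P]
    (h : Rp v P) (h' : Rp w P) : v = w := by
  obtain ⟨X, hX, ⟨f⟩⟩ := h
  obtain ⟨Y, hY, ⟨g⟩⟩ := h'
  rw [← hX, ← hY]
  exact Quotient.sound ⟨f.trans g.symm⟩

theorem rp_equiv {v : V R} {P Q : Type} [AddCommGroup P] [Module R P] [AddCommGroup Q]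
    [Module R Q] (h : Rp v P) (f : P ≃ₗ[R] Q) : Rp v Q := by
  obtain ⟨X, hX, ⟨g⟩⟩ := h
  exact ⟨X, hX, ⟨g.trans f⟩⟩

instance : Zero (V R) := ⟨(⟦obZero R⟧ : V R)⟩

instance : Add (V R) := ⟨Quotient.map₂ obAdd (by
  rintro X X' ⟨f⟩ Y Y' ⟨g⟩
  obtain ⟨h⟩ := md_add X Y
  obtain ⟨h'⟩ := md_add X' Y'
  exact ⟨(h.trans (f.prodCongr g)).trans h'.symm⟩)⟩

theorem rp_zero : Rp (0 : V R) PUnit :=
  ⟨obZero R, rfl, ⟨{
    toFun := fun _ => PUnit.unit
    invFun := fun _ => 0
    left_inv := fun _ => Subsingleton.elim _ _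
    right_inv := fun _ => rfl
    map_add' := fun _ _ => rfl
    map_smul' := fun _ _ => rfl }⟩⟩

theorem rp_add {v w : V R} {P Q : Type} [AddCommGroup P] [Module R P] [AddCommGroup Q]
    [Module R Q] (h : Rp v P) (h' : Rp w Q) : Rp (v + w) (P × Q) := by
  obtain ⟨X, hX, ⟨f⟩⟩ := h
  obtain ⟨Y, hY, ⟨g⟩⟩ := h'
  obtain ⟨k⟩ := md_add X Y
  refine ⟨obAdd X Y, ?_, ⟨k.trans (f.prodCongr g)⟩⟩
  rw [← hX, ← hY]
  rfl

theorem rp_exists (v : V R) : ∃ X : Ob R, Rp v (md X) := by
  obtain ⟨X, rfl⟩ := Quotient.exists_rep v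
  exact ⟨X, rp_mk X⟩

/-- a module with one element can be left out -/
def prodUnit (P : Type) [AddCommGroup P] [Module R P] : (PUnit.{1} × P) ≃ₗ[R] P where
  toFun x := x.2
  invFun y := (PUnit.unit, y)
  left_inv _ := rfl
  right_inv _ := rfl
  map_add' _ _ := rfl
  map_smul' _ _ := rfl

instance : AddCommMonoid (V R) where
  add_assoc u v w := by
    obtain ⟨X, hX⟩ := rp_exists u
    obtain ⟨Y, hY⟩ := rp_exists v
    obtain ⟨Z, hZ⟩ := rp_exists w
    exact rp_eq (rp_equiv (rp_add (rp_add hX hY) hZ) (LinearEquiv.prodAssoc R _ _ _))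
      (rp_add hX (rp_add hY hZ))
  zero_add v := by
    obtain ⟨X, hX⟩ := rp_exists v
    exact rp_eq (rp_equiv (rp_add rp_zero hX) (prodUnit _)) hX
  add_zero v := by
    obtain ⟨X, hX⟩ := rp_exists v
    exact rp_eq (rp_equiv (rp_equiv (rp_add hX rp_zero) (LinearEquiv.prodComm R _ _)) (prodUnit _))
      hX
  add_comm u v := by
    obtain ⟨X, hX⟩ := rp_exists u
    obtain ⟨Y, hY⟩ := rp_exists v
    exact rp_eq (rp_equiv (rp_add hX hY) (LinearEquiv.prodComm R _ _)) (rp_add hY hX)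
  nsmul := nsmulRec

/-- functions on `Fin (a + 1)` -/
def finSucc (P : Type) [AddCommGroup P] [Module R P] (a : ℕ) :
    ((Fin a → P) × P) ≃ₗ[R] (Fin (a + 1) → P) where
  toFun x := Fin.cons x.2 x.1
  invFun y := (Fin.tail y, y 0)
  left_inv x := by simp [Fin.tail_cons]
  right_inv y := by simp
  map_add' x y := by
    ext i
    refine Fin.cases ?_ (fun i => ?_) i <;> simp
  map_smul' c x := by
    ext i
    refine Fin.cases ?_ (fun i => ?_) i <;> simp

theorem rp_smul {v : V R} {P : Type} [AddCommGroup P] [Module R P] (h : Rp v P) (a : ℕ) :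
    Rp (a • v) (Fin a → P) := by
  induction a with
  | zero =>
    rw [zero_smul]
    exact rp_equiv rp_zero {
      toFun := fun _ => 0
      invFun := fun _ => PUnit.unit
      left_inv := fun _ => rfl
      right_inv := fun _ => Subsingleton.elim _ _
      map_add' := fun _ _ => Subsingleton.elim _ _
      map_smul' := fun _ _ => Subsingleton.elim _ _ }
  | succ a ih =>
    rw [succ_nsmul]
    exact rp_equiv (rp_add ih h) (finSucc P a)

end Mon

/-! ## The group `K₀(R)` -/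

section Grp

variable {R : Type} [Ring R]

/-- `K₀(R)` -/
abbrev KK (R : Type) [Ring R] : Type := Algebra.GrothendieckAddGroup (V R)

/-- the object of an idempotent matrix -/
noncomputable def ob {ι : Type} [Fintype ι] [DecidableEq ι] (M : Matrix ι ι R) (h : M * M = M) :
    Ob R :=
  ⟨Fintype.card ι, Matrix.reindex (Fintype.equivFin ι) (Fintype.equivFin ι) M, idem_reindex _ h⟩

theorem md_ob {ι : Type} [Fintype ι] [DecidableEq ι] (M : Matrix ι ι R) (h : M * M = M) :
    Nonempty (md (ob M h) ≃ₗ[R] fx M) := fx_reindex _ M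

open Classical in
/-- the class of an idempotent matrix -/
noncomputable def cl {ι : Type} [Fintype ι] [DecidableEq ι] (M : Matrix ι ι R) : KK R :=
  if h : M * M = M then Algebra.GrothendieckAddGroup.of (⟦ob M h⟧ : V R) else 0

theorem cl_eq {ι : Type} [Fintype ι] [DecidableEq ι] {M : Matrix ι ι R} (h : M * M = M)
    {v : V R} {P : Type} [AddCommGroup P] [Module R P] (hv : Rp v P)
    (f : Nonempty (fx M ≃ₗ[R] P)) : cl M = Algebra.GrothendieckAddGroup.of v := by
  obtain ⟨f⟩ := f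
  obtain ⟨g⟩ := md_ob M h
  unfold cl
  rw [dif_pos h]
  congr 1
  exact rp_eq (rp_equiv (rp_mk (ob M h)) (g.trans f)) hv

theorem cl_exists {ι : Type} [Fintype ι] [DecidableEq ι] {M : Matrix ι ι R} (h : M * M = M) :
    ∃ v : V R, Rp v (fx M) ∧ cl M = Algebra.GrothendieckAddGroup.of v := by
  obtain ⟨g⟩ := md_ob M h
  have hv : Rp (⟦ob M h⟧ : V R) (fx M) := rp_equiv (rp_mk (ob M h)) g
  exact ⟨_, hv, cl_eq h hv ⟨LinearEquiv.refl R _⟩⟩

theorem cl_congr {ι κ : Type} [Fintype ι] [DecidableEq ι] [Fintype κ] [DecidableEq κ]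
    {M : Matrix ι ι R} {N : Matrix κ κ R} (h : M * M = M) (h' : N * N = N)
    (f : Nonempty (fx M ≃ₗ[R] fx N)) : cl M = cl N := by
  obtain ⟨v, hv, hN⟩ := cl_exists h'
  rw [hN]
  exact cl_eq h hv f

theorem of_eq {v w : V R} (h : (Algebra.GrothendieckAddGroup.of v : KK R) =
    Algebra.GrothendieckAddGroup.of w) : ∃ c : V R, c + v = c + w := by
  obtain ⟨c, hc⟩ := (AddLocalization.addMonoidOf (⊤ : AddSubmonoid (V R))).exists_of_eq h
  exact ⟨c.1, hc⟩

/-! ## The K-theory datum -/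

theorem cl_conj {ι : Type} [Fintype ι] [DecidableEq ι] (g h M : Matrix ι ι R)
    (_h1 : g * h = 1) (h2 : h * g = 1) (hM : M * M = M) : cl (g * M * h) = cl M := by
  have h3 : (g * M * h) * (g * M * h) = g * M * h := by
    calc (g * M * h) * (g * M * h) = g * (M * (h * g) * M) * h := by
          simp only [Matrix.mul_assoc]
      _ = g * M * h := by rw [h2, Matrix.mul_one, hM]
  refine cl_congr h3 hM (mvn' (g * M) h rfl ?_)
  rw [← Matrix.mul_assoc, h2, Matrix.one_mul]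

theorem cl_tri {ι ι' : Type} [Fintype ι] [DecidableEq ι] [Fintype ι'] [DecidableEq ι']
    (A : Matrix ι ι R) (B : Matrix ι ι' R) (D : Matrix ι' ι' R)
    (hA : A * A = A) (hD : D * D = D)
    (hN : fromBlocks A B 0 D * fromBlocks A B 0 D = fromBlocks A B 0 D) :
    cl (fromBlocks A B 0 D) = cl A + cl D := by
  obtain ⟨v, hv, h1⟩ := cl_exists hA
  obtain ⟨w, hw, h2⟩ := cl_exists hD
  rw [h1, h2, ← map_add]
  exact cl_eq hN (rp_add hv hw) (fx_tri A B D hA hD hN)

theorem cl_lin [Algebra (ZMod 2) R] {ι : Type} [Fintype ι] [DecidableEq ι] (V0 V1 : Matrix ι ι R)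
    (h0 : V0 * V0 = V0) (h1 : V0 * V1 + V1 * V0 = V1) (h2 : V1 * V1 = 0) :
    cl (V0 + V1) = cl V0 := by
  have hc : V1 + V1 = 0 := by
    have h3 : (2 : ZMod 2) • V1 = 0 := by
      rw [show (2 : ZMod 2) = 0 from rfl, zero_smul]
    rw [← h3, show (2 : ZMod 2) = 1 + 1 from rfl, add_smul, one_smul]
  have hg : (1 + V1) * (1 + V1) = 1 := by
    rw [mul_add, mul_one, add_mul, one_mul, h2, add_zero, add_assoc, hc, add_zero]
  have h3 : V1 * V0 * V1 = 0 := by
    have h4 : V1 * (V0 * V1 + V1 * V0) = V1 * V1 := by rw [h1]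
    rw [mul_add, ← mul_assoc V1 V1 V0, h2, zero_mul, add_zero, ← mul_assoc] at h4
    exact h4
  have h5 : (1 + V1) * V0 * (1 + V1) = V0 + V1 := by
    rw [mul_add, mul_one, add_mul, one_mul, add_mul, h3, add_zero, add_assoc, add_comm (V1 * V0),
      h1]
  rw [← h5]
  exact cl_conj _ _ _ hg hg h0

/-- `K₀(R)` as a K-theory datum -/
noncomputable def kt (R : Type) [Ring R] [Algebra (ZMod 2) R] : KT .idem R where
  K := KK R
  inst := inferInstance
  cls := fun M => cl M
  conj := fun g h M h1 h2 hM => cl_conj g h M h1 h2 hM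
  tri := fun A B D hA hD hN => cl_tri A B D hA hD hN
  rein := fun e M hM => cl_congr (idem_reindex e hM) hM (fx_reindex e M)
  lin := fun V0 V1 h => by rw [cl_lin V0 V1 h.1 h.2.1 h.2.2]

/-! ## The field part -/

theorem rank_fact {F : Type} [Field F] {ι : Type} [Fintype ι] [DecidableEq ι] (M : Matrix ι ι F)
    (hM : M * M = M) : ∃ (r : ℕ) (a : Matrix ι (Fin r) F) (b : Matrix (Fin r) ι F),
      a * b = M ∧ b * a = 1 := by
  set φ := Matrix.toLin' M with hφ
  have hφφ : ∀ x, φ (φ x) = φ x := by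
    intro x
    rw [← LinearMap.comp_apply, ← Matrix.toLin'_mul, hM]
  have β := Module.finBasis F (LinearMap.range φ)
  set r := Module.finrank F (LinearMap.range φ)
  set β' := β.equivFun
  refine ⟨r, LinearMap.toMatrix' ((LinearMap.range φ).subtype ∘ₗ β'.symm.toLinearMap),
    LinearMap.toMatrix' (β'.toLinearMap ∘ₗ φ.rangeRestrict), ?_, ?_⟩
  · rw [← LinearMap.toMatrix'_comp]
    have : ((LinearMap.range φ).subtype ∘ₗ β'.symm.toLinearMap) ∘ₗ
        (β'.toLinearMap ∘ₗ φ.rangeRestrict) = φ := by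
      apply LinearMap.ext
      intro x
      show ((β'.symm (β' (φ.rangeRestrict x)) : LinearMap.range φ) : ι → F) = φ x
      rw [LinearEquiv.symm_apply_apply]
      rfl
    rw [this, hφ, LinearMap.toMatrix'_toLin']
  · rw [← LinearMap.toMatrix'_comp]
    have : (β'.toLinearMap ∘ₗ φ.rangeRestrict) ∘ₗ
        ((LinearMap.range φ).subtype ∘ₗ β'.symm.toLinearMap) = LinearMap.id := by
      apply LinearMap.ext
      intro x
      have h1 : φ.rangeRestrict ((β'.symm x : LinearMap.range φ) : ι → F) = β'.symm x := by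
        apply Subtype.ext
        obtain ⟨y, hy⟩ := (β'.symm x).2
        show φ ((β'.symm x : LinearMap.range φ) : ι → F) = _
        rw [← hy, hφφ]
      show β' (φ.rangeRestrict ((β'.symm x : LinearMap.range φ) : ι → F)) = x
      rw [h1, LinearEquiv.apply_symm_apply]
    rw [this, LinearMap.toMatrix'_id]

/-- functions on `Unit` -/
theorem fx_unit : Nonempty (fx (1 : Matrix Unit Unit R) ≃ₗ[R] R) := by
  obtain ⟨f⟩ := fx_one (R := R) (ι := Unit)
  exact ⟨f.trans (LinearEquiv.funUnique Unit R R)⟩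

theorem idem_one {ι : Type} [Fintype ι] [DecidableEq ι] :
    (1 : Matrix ι ι R) * 1 = 1 := Matrix.one_mul 1

theorem rp_unit : ∃ w : V R, Rp w R ∧
    cl (1 : Matrix Unit Unit R) = Algebra.GrothendieckAddGroup.of w := by
  obtain ⟨w, hw, h⟩ := cl_exists (M := (1 : Matrix Unit Unit R)) idem_one
  obtain ⟨f⟩ := fx_unit (R := R)
  exact ⟨w, rp_equiv hw f, h⟩

theorem cl_one (r : ℕ) : cl (1 : Matrix (Fin r) (Fin r) R) =
    r • cl (1 : Matrix Unit Unit R) := by
  obtain ⟨w, hw, h⟩ := rp_unit (R := R)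
  rw [h, ← map_nsmul]
  exact cl_eq idem_one (rp_smul hw r) fx_one

theorem field_part [Algebra (ZMod 2) R] {ι : Type} [Fintype ι] [DecidableEq ι]
    (M : Matrix ι ι (ZMod 2)) (hM : M * M = M) :
    ∃ r : ℕ, cl (M.map (algebraMap (ZMod 2) R)) = r • cl (1 : Matrix Unit Unit R) := by
  have : Fact (Nat.Prime 2) := ⟨Nat.prime_two⟩
  obtain ⟨r, a, b, h1, h2⟩ := rank_fact M hM
  refine ⟨r, ?_⟩
  rw [← cl_one]
  have h3 : M.map (algebraMap (ZMod 2) R) * M.map (algebraMap (ZMod 2) R) =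
      M.map (algebraMap (ZMod 2) R) := by
    rw [← Matrix.map_mul, hM]
  refine cl_congr h3 idem_one (mvn' (a.map (algebraMap (ZMod 2) R))
    (b.map (algebraMap (ZMod 2) R)) ?_ ?_)
  · rw [← Matrix.map_mul, h1]
  · rw [← Matrix.map_mul, h2]
    exact Matrix.map_one _ (map_zero _) (map_one _)

/-! ## The module part -/

theorem exists_idem (Q : Type) [AddCommGroup Q] [Module R Q] [Module.Finite R Q]
    [Module.Projective R Q] : ∃ (n : ℕ) (e : Matrix (Fin n) (Fin n) R), e * e = e ∧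
      Nonempty (fx e ≃ₗ[R] Q) := by
  obtain ⟨n, f, hf⟩ := Module.Finite.exists_fin' R Q
  obtain ⟨g, hg⟩ := Module.projective_lifting_property f LinearMap.id hf
  have hfg : ∀ x, f (g x) = x := fun x => LinearMap.congr_fun hg x
  set e : Matrix (Fin n) (Fin n) R := LinearMap.toMatrixRight' (g ∘ₗ f) with he
  have key : ∀ x, x ᵥ* e = g (f x) := by
    intro x
    have h1 : Matrix.toLinearMapRight' e = g ∘ₗ f := by
      rw [he]
      exact LinearMap.toMatrixRight'.symm_apply_apply _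
    have h2 := LinearMap.congr_fun h1 x
    rw [LinearMap.comp_apply] at h2
    exact h2
  have hee : e * e = e := by
    rw [he, ← LinearMap.toMatrixRight'_comp]
    congr 1
    apply LinearMap.ext
    intro x
    show g (f (g (f x))) = g (f x)
    rw [hfg]
  refine ⟨n, e, hee, ⟨{
    toFun := fun x => f x.1
    invFun := fun y => ⟨g y, by rw [mem_fx, key, hfg]⟩
    left_inv := fun x => by
      apply Subtype.ext
      show g (f x.1) = x.1
      rw [← key]
      exact x.2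
    right_inv := fun y => hfg y
    map_add' := fun x y => map_add f _ _
    map_smul' := fun c x => map_smul f _ _ }⟩⟩

/-- the complement of the module of an idempotent -/
theorem compl_equiv (X : Ob R) : Nonempty ((md X × fx (1 - X.e)) ≃ₗ[R] (Fin X.n → R)) := by
  have h1 : X.e * (1 - X.e) = 0 := by rw [Matrix.mul_sub, Matrix.mul_one, X.he, sub_self]
  have h2 : (1 - X.e) * X.e = 0 := by rw [Matrix.sub_mul, Matrix.one_mul, X.he, sub_self]
  have h3 : (1 - X.e) * (1 - X.e) = 1 - X.e := by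
    rw [Matrix.mul_sub, Matrix.mul_one, h2, sub_zero]
  exact ⟨{
    toFun := fun p => p.1.1 + p.2.1
    invFun := fun x => (⟨x ᵥ* X.e, by rw [mem_fx, Matrix.vecMul_vecMul, X.he]⟩,
      ⟨x ᵥ* (1 - X.e), by rw [mem_fx, Matrix.vecMul_vecMul, h3]⟩)
    left_inv := fun p => by
      have a1 : p.1.1 ᵥ* X.e = p.1.1 := p.1.2
      have a2 : p.2.1 ᵥ* (1 - X.e) = p.2.1 := p.2.2
      have a3 : p.2.1 ᵥ* X.e = 0 := by
        rw [← a2, Matrix.vecMul_vecMul, h2, Matrix.vecMul_zero]
      have a4 : p.1.1 ᵥ* (1 - X.e) = 0 := by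
        rw [← a1, Matrix.vecMul_vecMul, h1, Matrix.vecMul_zero]
      apply Prod.ext
      · apply Subtype.ext
        show (p.1.1 + p.2.1) ᵥ* X.e = p.1.1
        rw [Matrix.add_vecMul, a1, a3, add_zero]
      · apply Subtype.ext
        show (p.1.1 + p.2.1) ᵥ* (1 - X.e) = p.2.1
        rw [Matrix.add_vecMul, a2, a4, zero_add]
    right_inv := fun x => by
      show x ᵥ* X.e + x ᵥ* (1 - X.e) = x
      rw [← Matrix.vecMul_add, add_sub_cancel, Matrix.vecMul_one]
    map_add' := fun p q => by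
      show (p.1.1 + q.1.1) + (p.2.1 + q.2.1) = (p.1.1 + p.2.1) + (q.1.1 + q.2.1)
      abel
    map_smul' := fun c p => by
      show c • p.1.1 + c • p.2.1 = c • (p.1.1 + p.2.1)
      rw [smul_add] }⟩

/-- `R^b × R^s = R^(b+s)` -/
theorem fin_add (b s : ℕ) : Nonempty (((Fin b → R) × (Fin s → R)) ≃ₗ[R] (Fin (b + s) → R)) :=
  ⟨(LinearEquiv.sumArrowLequivProdArrow (Fin b) (Fin s) R R).symm.trans
    (LinearEquiv.funCongrLeft R R finSumFinEquiv.symm)⟩

theorem module_part (Q : Type) [AddCommGroup Q] [Module R Q] [Module.Finite R Q]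
    [Module.Projective R Q] : ∃ (n : ℕ) (e : Matrix (Fin n) (Fin n) R), e * e = e ∧
      ∀ a b : ℕ, a • cl e = b • cl (1 : Matrix Unit Unit R) →
        ∃ s : ℕ, Nonempty (((Fin a → Q) × (Fin s → R)) ≃ₗ[R] (Fin (b + s) → R)) := by
  obtain ⟨n, e, he, ⟨f⟩⟩ := exists_idem (R := R) Q
  refine ⟨n, e, he, fun a b hab => ?_⟩
  obtain ⟨v, hv, h1⟩ := cl_exists he
  obtain ⟨w, hw, h2⟩ := rp_unit (R := R)
  rw [h1, h2, ← map_nsmul, ← map_nsmul] at hab
  obtain ⟨c, hc⟩ := of_eq hab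
  obtain ⟨X, hX⟩ := rp_exists c
  have hq : Rp v Q := rp_equiv hv f
  obtain ⟨k⟩ := rp_uniq (rp_add hX (rp_smul hq a)) (hc ▸ rp_add hX (rp_smul hw b))
  obtain ⟨m⟩ := compl_equiv X
  obtain ⟨t⟩ := fin_add (R := R) b X.n
  set P' := fx (1 - X.e) with hP'
  have e1 : ((Fin a → Q) × (Fin X.n → R)) ≃ₗ[R] ((Fin a → Q) × (md X × P')) :=
    (LinearEquiv.refl R (Fin a → Q)).prodCongr m.symm
  have e2 : ((Fin a → Q) × (md X × P')) ≃ₗ[R] (((Fin a → Q) × md X) × P') :=
    (LinearEquiv.prodAssoc R (Fin a → Q) (md X) P').symm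
  have e3 : (((Fin a → Q) × md X) × P') ≃ₗ[R] ((md X × (Fin a → Q)) × P') :=
    (LinearEquiv.prodComm R (Fin a → Q) (md X)).prodCongr (LinearEquiv.refl R P')
  have e4 : ((md X × (Fin a → Q)) × P') ≃ₗ[R] ((md X × (Fin b → R)) × P') :=
    k.prodCongr (LinearEquiv.refl R P')
  have e5 : ((md X × (Fin b → R)) × P') ≃ₗ[R] (((Fin b → R) × md X) × P') :=
    (LinearEquiv.prodComm R (md X) (Fin b → R)).prodCongr (LinearEquiv.refl R P')
  have e6 : (((Fin b → R) × md X) × P') ≃ₗ[R] ((Fin b → R) × (md X × P')) :=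
    LinearEquiv.prodAssoc R (Fin b → R) (md X) P'
  have e7 : ((Fin b → R) × (md X × P')) ≃ₗ[R] ((Fin b → R) × (Fin X.n → R)) :=
    (LinearEquiv.refl R (Fin b → R)).prodCongr m
  exact ⟨X.n, ⟨(((((((e1.trans e2).trans e3).trans e4).trans e5).trans e6).trans e7).trans t)⟩⟩

end Grp

/-- [K0] the K-theory datum given by `K₀`. -/
theorem k0 : KG.K0S := by
  intro R _ _
  refine ⟨kt R, ?_, ?_⟩
  · intro ι _ _ M hM
    exact field_part M hM
  · intro Q _ _ _ _
    exact module_part Q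

end KG.H82
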